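import Pool.Agent.helper31.RLS.Spec

/-!
# Row BU: Buchstab's identity for Rosser's weights
-/

set_option autoImplicit false

namespace Pool.Agent.RLS

open Finset

theorem BU_bel_self (P : Finset ℕ) (p : ℕ) (hp : ∀ q ∈ P, q < p) : bel (insert p P) p = P := by
  unfold bel
  ext q
  simp only [mem_filter, mem_insert]
  constructor
  · rintro ⟨h | h, h'⟩
    · omega
    · exact h
  · intro h
    exact ⟨Or.inr h, hp q h⟩

theorem BU_bel_of_mem (P : Finset ℕ) (p : ℕ) (hp : ∀ q ∈ P, q < p) (q : ℕ) (hq : q ∈ P) :
    bel (insert p P) q = bel P q := by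
  unfold bel
  ext r
  simp only [mem_filter, mem_insert]
  have := hp q hq
  constructor
  · rintro ⟨h | h, h'⟩
    · omega
    · exact ⟨h, h'⟩
  · rintro ⟨h, h'⟩
    exact ⟨Or.inr h, h'⟩

theorem BU_empty (h1 : LA_stmt) (b : Bool) (g : ℕ → ℝ) (L : ℝ) : SS b g L ∅ = 1 := by
  unfold SS
  rw [powerset_empty, sum_singleton, h1.1 b L]
  simp

theorem BU_insert (b : Bool) (g : ℕ → ℝ) (L : ℝ) (P : Finset ℕ) (p : ℕ) (hp : p ∉ P) :
    SS b g L (insert p P) = SS b g L P +
      ∑ K ∈ P.powerset, lam b L (insert p K) * (g p * ∏ q ∈ K, g q) := by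
  unfold SS
  rw [sum_powerset_insert hp]
  congr 1
  apply sum_congr rfl
  intro K hK
  rw [mem_powerset] at hK
  rw [prod_insert (fun h => hp (hK h))]

theorem BU (h1 : LA_stmt) : BU_stmt := by
  intro g L P
  induction P using Finset.induction_on_max with
  | empty =>
    constructor
    · rw [BU_empty h1]
      simp
    · rw [BU_empty h1]
      simp
  | insert p P hp ih =>
    have hpP : p ∉ P := fun h => lt_irrefl p (hp p h)
    have hsub : ∀ K ∈ P.powerset, ∀ q ∈ K, q < p := by
      intro K hK q hq
      exact hp q (mem_powerset.1 hK hq)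
    obtain ⟨ih1, ih2⟩ := ih
    constructor
    · rw [BU_insert true g L P p hpP, ih1]
      have hcong : ∑ q ∈ P.filter (fun q : ℕ => 3 * Real.log q < L),
          g q * SS false g (L - Real.log q) (bel (insert p P) q) =
          ∑ q ∈ P.filter (fun q : ℕ => 3 * Real.log q < L),
          g q * SS false g (L - Real.log q) (bel P q) := by
        apply sum_congr rfl
        intro q hq
        rw [BU_bel_of_mem P p hp q (mem_filter.1 hq).1]
      rw [filter_insert]
      split_ifs with hlt
      · rw [sum_insert (fun h => hpP (mem_filter.1 h).1), hcong, BU_bel_self P p hp]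
        have hs : ∑ K ∈ P.powerset, lam true L (insert p K) * (g p * ∏ q ∈ K, g q) =
            - (g p * SS false g (L - Real.log p) P) := by
          unfold SS
          rw [mul_sum, ← sum_neg_distrib]
          apply sum_congr rfl
          intro K hK
          rw [h1.2.1 L K p (hsub K hK), if_pos hlt]
          ring
        rw [hs]
        ring
      · rw [hcong]
        have hs : ∑ K ∈ P.powerset, lam true L (insert p K) * (g p * ∏ q ∈ K, g q) = 0 := by
          apply sum_eq_zero
          intro K hK
          rw [h1.2.1 L K p (hsub K hK), if_neg hlt]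
          ring
        rw [hs]
        ring
    · rw [BU_insert false g L P p hpP, ih2, sum_insert hpP, BU_bel_self P p hp]
      have hcong : ∑ q ∈ P, g q * SS true g (L - Real.log q) (bel (insert p P) q) =
          ∑ q ∈ P, g q * SS true g (L - Real.log q) (bel P q) := by
        apply sum_congr rfl
        intro q hq
        rw [BU_bel_of_mem P p hp q hq]
      have hs : ∑ K ∈ P.powerset, lam false L (insert p K) * (g p * ∏ q ∈ K, g q) =
          - (g p * SS true g (L - Real.log p) P) := by
        unfold SS
        rw [mul_sum, ← sum_neg_distrib]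
        apply sum_congr rfl
        intro K hK
        rw [h1.2.2.1 L K p (hsub K hK)]
        ring
      rw [hs, hcong]
      ring

end Pool.Agent.RLS
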